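import Pool.Agent.R189.PF

/-!
# MP_610fe3_an: the periodic fibres of a semiconjugacy decide about transitivity
-/

set_option autoImplicit false

open scoped Manifold ContDiff Topology
open Set Filter

namespace Pool.Agent.Results.MP_610fe3_an.PeriodicFibres

open Pool.Agent.H721R2 Pool.Agent.H789R2.AN

/-- There are chains of `f` with arbitrarily small jumps from `x` to `x'`: for every neighbourhood
`𝒰` of the diagonal there are finitely many points `x = x₀, x₁, …, xₙ = x'` with
`(f(xᵢ), xᵢ₊₁) ∈ 𝒰`. -/
def ChainTo {M : Type*} [TopologicalSpace M] (f : M → M) (x x' : M) : Prop :=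
  ∀ 𝒰 ∈ 𝓝ˢ (diagonal M), Relation.ReflTransGen (fun a b => (f a, b) ∈ 𝒰) x x'

/-- The point `x` is nonwandering: each open neighbourhood `U` of `x` meets `fᵐ(U)` for some
`m ≥ 1`. -/
def Nonwandering {M : Type*} [TopologicalSpace M] (f : M → M) (x : M) : Prop :=
  ∀ U : Set M, IsOpen U → x ∈ U → ∃ m : ℕ, 1 ≤ m ∧ (f^[m] '' U ∩ U).Nonempty

/-- **The periodic fibres of a semiconjugacy decide about transitivity.**
Let `f` be a `C¹` Anosov diffeomorphism of a closed connected manifold `M`, let `g` be a
topologically transitive homeomorphism of a compact metric space `Y` and let `h : M → Y` be a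
continuous SURJECTIVE map with `h ∘ f = g ∘ h`.  Nothing else is assumed on `h`: it need not be
open, it may collapse open sets, and `Y` need not be a manifold.

(1) `f` is topologically transitive if and only if, for every periodic point `z` of `g`, the
nonwandering points of `f` in the fibre `h⁻¹(z)` are chain equivalent for `f`.

(2) If `g` is expansive, then `f` is topologically transitive if and only if any two PERIODIC points
of `f` with the same image under `h` are chain equivalent for `f` (for instance: if `h` is injective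
on the set of the periodic points of `f`, or if the fibre of each periodic point of `g` contains
only one periodic orbit of `f`, then `f` is transitive). -/
theorem result (E : Type*) [NormedAddCommGroup E] [NormedSpace ℝ E] [FiniteDimensional ℝ E]
    (M : Type*) [TopologicalSpace M] [T2Space M] [CompactSpace M] [ConnectedSpace M]
    [ChartedSpace E M] [IsManifold 𝓘(ℝ, E) ∞ M] (f : Diffeomorph 𝓘(ℝ, E) 𝓘(ℝ, E) M M 1)
    (Es Eu : ∀ x : M, Submodule ℝ (TangentSpace 𝓘(ℝ, E) x)) (hf : IsAnosov f Es Eu)
    (Y : Type*) [MetricSpace Y] [CompactSpace Y] (g : Y ≃ₜ Y)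
    (hg : TopTransitive g) (h : C(M, Y)) (hs : Function.Surjective h)
    (hfg : ∀ x, h (f x) = g (h x)) :
    (TopTransitive f ↔ ∀ x x' : M, h x = h x' → h x ∈ Function.periodicPts g →
      Nonwandering f x → Nonwandering f x' → ChainTo f x x') ∧
    ((∃ c > 0, ∀ y z : Y, (∀ n : ℤ, dist ((g ^ n) y) ((g ^ n) z) ≤ c) → y = z) →
      (TopTransitive f ↔ ∀ x ∈ Function.periodicPts f, ∀ x' ∈ Function.periodicPts f,
        h x = h x' → ChainTo f x x')) := by
  have key : TopTransitive f → ∀ x x' : M, ChainTo f x x' := fun ht x x' 𝒰 hU =>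
    Pool.Agent.R189.PF.chn_of_trans ht x x' 𝒰 hU f.surjective f.continuous
  refine ⟨⟨fun ht x x' _ _ _ _ => key ht x x', fun h1 => ?_⟩, fun he =>
    ⟨fun ht x _ x' _ _ => key ht x x', fun h1 => ?_⟩⟩
  · exact Pool.Agent.R189.PF.man_per f Es Eu hf hg h.continuous hs hfg
      (Or.inl fun x x' h2 h3 h4 h5 => h1 x x' h2 h3 h4 h5)
  · exact Pool.Agent.R189.PF.man_per f Es Eu hf hg h.continuous hs hfg
      (Or.inr ⟨he, fun x hx x' hx' h2 => h1 x hx x' hx' h2⟩)

end Pool.Agent.Results.MP_610fe3_an.PeriodicFibres
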