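import Pool.Agent.Y321.PJ.Main

/-!
# MP_610fe3_an: transitivity is decided by the Jacobians at the periodic points seen from one open set
-/

set_option autoImplicit false

open scoped Manifold ContDiff Topology
open Set Filter

namespace Pool.Agent.Results.MP_610fe3_an.PeriodicJacobianLocal

open Pool.Agent.H721R2 Pool.Agent.H789R2.AN

/-- `|det D(fⁿ)(p)|`, for a point `p` with `fⁿ(p) = p`: the absolute value of the determinant of
the derivative of `fⁿ` at `p`, which is an endomorphism of the tangent space at `p`. -/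
noncomputable def perJac (E : Type*) [NormedAddCommGroup E] [NormedSpace ℝ E]
    {M : Type*} [TopologicalSpace M] [ChartedSpace E M] (f : M → M) (n : ℕ) (p : M) : ℝ :=
  |(mfderiv 𝓘(ℝ, E) 𝓘(ℝ, E) (f^[n]) p : E →L[ℝ] E).det|

/-- **Transitivity is decided by the Jacobians at the periodic points seen from one open set.**
Let `f` be a `C²` Anosov diffeomorphism of a closed connected smooth manifold `M`, and let `V` be any
nonempty open subset of `M`.  Suppose that no point `x` of `V` is at the same time forward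
asymptotic to a volume contracting periodic point `p` (`fⁿ(p) = p`, `|det D(fⁿ)(p)| < 1`,
`f^(nk)(x) → p` as `k → ∞`) and backward asymptotic to a volume expanding periodic point `q`
(`fⁿ(q) = q`, `|det D(fⁿ)(q)| > 1`, `f^(-nk)(x) → q` as `k → ∞`).  (This holds for instance if
`|det D(fⁿ)(p)| ≥ 1` for every periodic point `p` whose stable manifold meets `V`, or if
`|det D(fⁿ)(q)| ≤ 1` for every periodic point `q` whose unstable manifold meets `V`.)
Then `f` is topologically transitive. -/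
theorem result (E : Type*) [NormedAddCommGroup E] [NormedSpace ℝ E] [FiniteDimensional ℝ E]
    (M : Type*) [TopologicalSpace M] [T2Space M] [CompactSpace M] [ConnectedSpace M]
    [ChartedSpace E M] [IsManifold 𝓘(ℝ, E) ∞ M] (f : Diffeomorph 𝓘(ℝ, E) 𝓘(ℝ, E) M M 1)
    (hf2 : ContMDiff 𝓘(ℝ, E) 𝓘(ℝ, E) 2 f) (hf2' : ContMDiff 𝓘(ℝ, E) 𝓘(ℝ, E) 2 f.symm)
    (Es Eu : ∀ x : M, Submodule ℝ (TangentSpace 𝓘(ℝ, E) x)) (hA : IsAnosov f Es Eu)
    (V : Set M) (hV : IsOpen V) (hne : V.Nonempty)
    (hJ : ∀ x ∈ V, ∀ (n : ℕ) (p q : M), 1 ≤ n → f^[n] p = p → f^[n] q = q →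
      Tendsto (fun k : ℕ => f^[n * k] x) atTop (𝓝 p) →
      Tendsto (fun k : ℕ => f.symm^[n * k] x) atTop (𝓝 q) →
      1 ≤ perJac E f n p ∨ perJac E f n q ≤ 1) :
    TopTransitive f := by
  by_contra hnt
  obtain ⟨n, P, Q, hn, -, -, hP, hQ, hd⟩ :=
    Pool.Agent.Y321.PJ.main f hf2 hf2' Es Eu hA hnt
  obtain ⟨x, hxV, ⟨p, hp, hxp⟩, ⟨q, hq, hxq⟩⟩ := hd.inter_open_nonempty V hV hne
  rcases hJ x hxV n p q hn (hP p hp).1 (hQ q hq).1 hxp hxq with h | h
  · exact absurd h (not_le.mpr (hP p hp).2)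
  · exact absurd h (not_le.mpr (hQ q hq).2)

end Pool.Agent.Results.MP_610fe3_an.PeriodicJacobianLocal
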