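import Pool.Agent.R189.Sf4

/-!
# MP_610fe3_an: factors with a fibre in periodic surfaces
-/

set_option autoImplicit false

open scoped Manifold ContDiff Topology
open Set Filter

namespace Pool.Agent.Results.MP_610fe3_an.PeriodicSurfaceFibre

open Pool.Agent.H721R2 Pool.Agent.H789R2.AN

/-- The points `x` and `x'` lie on a common PERIODIC SURFACE of `f`: there are a closed (compact,
boundaryless) connected surface `Q` and an injective `C²` immersion `j : Q → M` such that
`f^k(j(Q)) = j(Q)` for some `k ≥ 1` and `x, x' ∈ j(Q)`. -/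
def OnPeriodicSurface {E : Type*} [NormedAddCommGroup E] [NormedSpace ℝ E]
    {M : Type*} [TopologicalSpace M] [ChartedSpace E M] (f : M → M) (x x' : M) : Prop :=
  ∃ (Q : Type) (_ : TopologicalSpace Q) (_ : ChartedSpace (EuclideanSpace ℝ (Fin 2)) Q)
    (j : Q → M), IsManifold (𝓡 2) ∞ Q ∧ CompactSpace Q ∧ ConnectedSpace Q ∧
    ContMDiff (𝓡 2) 𝓘(ℝ, E) 2 j ∧ Function.Injective j ∧
    (∀ z, Function.Injective (mfderiv (𝓡 2) 𝓘(ℝ, E) j z)) ∧
    (∃ k : ℕ, 1 ≤ k ∧ f^[k] '' range j = range j) ∧ x ∈ range j ∧ x' ∈ range j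

/-- **Factors of Anosov diffeomorphisms with a fibre in periodic surfaces.**
Let `f` be a `C²` Anosov diffeomorphism of a closed connected manifold `M` (of any dimension).
Call two points linked if they can be joined by a finite sequence of points any two consecutive
ones of which lie on a common periodic surface of `f` (see `OnPeriodicSurface`).

(1) Let `g` be a topologically transitive homeomorphism of a compact Hausdorff space `Y` and let
`h : M → Y` be a continuous map with `h ∘ f = g ∘ h` which maps nonempty open sets to sets with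
nonempty interior.  If ONE fibre `h⁻¹(y₀)` is such that any two of its points are linked, then `f`
is topologically transitive.

(2) Let `g` be a topologically transitive and expansive homeomorphism of a compact metric space `Y`
and let `h : M → Y` be a continuous surjective map with `h ∘ f = g ∘ h`.  If any two periodic points
of `f` with the same image under `h` are linked, then `f` is topologically transitive. -/
theorem result (E : Type*) [NormedAddCommGroup E] [NormedSpace ℝ E] [FiniteDimensional ℝ E]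
    (M : Type*) [TopologicalSpace M] [T2Space M] [CompactSpace M] [ConnectedSpace M]
    [ChartedSpace E M] [IsManifold 𝓘(ℝ, E) ∞ M] (f : Diffeomorph 𝓘(ℝ, E) 𝓘(ℝ, E) M M 1)
    (hf2 : ContMDiff 𝓘(ℝ, E) 𝓘(ℝ, E) 2 f) (hf2' : ContMDiff 𝓘(ℝ, E) 𝓘(ℝ, E) 2 f.symm)
    (Es Eu : ∀ x : M, Submodule ℝ (TangentSpace 𝓘(ℝ, E) x)) (hf : IsAnosov f Es Eu) :
    (∀ (Y : Type*) [TopologicalSpace Y] [CompactSpace Y] [T2Space Y] (g : Y ≃ₜ Y) (h : C(M, Y)),
      TopTransitive g → (∀ x, h (f x) = g (h x)) →
      (∀ W : Set M, IsOpen W → W.Nonempty → (interior (h '' W)).Nonempty) →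
      (∃ y₀ : Y, ∀ x ∈ h ⁻¹' {y₀}, ∀ x' ∈ h ⁻¹' {y₀},
        Relation.ReflTransGen (OnPeriodicSurface (E := E) f) x x') → TopTransitive f) ∧
    (∀ (Y : Type*) [MetricSpace Y] [CompactSpace Y] (g : Y ≃ₜ Y) (h : C(M, Y)),
      TopTransitive g →
      (∃ c > 0, ∀ y z : Y, (∀ n : ℤ, dist ((g ^ n) y) ((g ^ n) z) ≤ c) → y = z) →
      Function.Surjective h → (∀ x, h (f x) = g (h x)) →
      (∀ x ∈ Function.periodicPts f, ∀ x' ∈ Function.periodicPts f, h x = h x' →
        Relation.ReflTransGen (OnPeriodicSurface (E := E) f) x x') → TopTransitive f) := by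
  have key : ∀ x x' : M, Relation.ReflTransGen (OnPeriodicSurface (E := E) f) x x' →
      ∀ 𝒰 ∈ 𝓝ˢ (diagonal M), Relation.ReflTransGen (fun a b => (f a, b) ∈ 𝒰) x x' := by
    intro x x' h 𝒰 hU
    induction h with
    | refl => exact Relation.ReflTransGen.refl
    | tail _ hab ih =>
      refine ih.trans ?_
      obtain ⟨Q, _, _, j, _, _, _, hj, hji, hjd, ⟨k, hk, hinv⟩, ⟨z, rfl⟩, ⟨z', rfl⟩⟩ := hab
      exact Pool.Agent.R189.Sf.surf_chn finrank_euclideanSpace_fin hj hji hjd f hf2 hf2' Es Eu hf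
        hk hinv z z' 𝒰 hU
  refine ⟨fun Y _ _ _ g h hg hfg hint hy => ?_, fun Y _ _ g h hg he hs hfg hp => ?_⟩
  · obtain ⟨y₀, hy₀⟩ := hy
    exact Pool.Agent.TH289.L.man_fibre f Es Eu hf hg h.continuous hfg hint
      (fun x hx x' hx' => key x x' (hy₀ x hx x' hx'))
  · exact Pool.Agent.R189.PF.man_per f Es Eu hf hg h.continuous hs hfg
      (Or.inr ⟨he, fun x hx x' hx' h2 => key x x' (hp x hx x' hx' h2)⟩)

end Pool.Agent.Results.MP_610fe3_an.PeriodicSurfaceFibre
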