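import Pool.Agent.R189.Fb4

/-!
# MP_610fe3_an: Anosov diffeomorphisms preserving a fibration by surfaces
-/

set_option autoImplicit false

open scoped Manifold ContDiff Topology
open Set Filter

namespace Pool.Agent.Results.MP_610fe3_an.SurfaceFibration

open Pool.Agent.H721R2 Pool.Agent.H789R2.AN

/-- **Anosov diffeomorphisms preserving a fibration by surfaces.**
Let `M` and `B` be closed connected manifolds with `dim M = dim B + 2`, let `p : M → B` be a `C²`
submersion all of whose fibres are `C²` embedded copies of a closed connected surface `Q` (for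
instance, a smooth fibre bundle with fibre `Q`), and let `f` be a `C²` Anosov diffeomorphism of `M`
which permutes the fibres, i.e. `p ∘ f = g ∘ p` for a `C²` diffeomorphism `g` of `B`.
No hyperbolicity of `f` along or transversally to the fibres is assumed, and nothing is assumed
on `g`.  Then:

* `g` is Anosov;
* `f` is topologically transitive if and only if `g` is;
* `dim B ≠ 1`;
* if `dim B = 2` then `f` is topologically transitive. -/
theorem result (E : Type*) [NormedAddCommGroup E] [NormedSpace ℝ E] [FiniteDimensional ℝ E]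
    (M : Type*) [TopologicalSpace M] [T2Space M] [CompactSpace M] [ConnectedSpace M]
    [ChartedSpace E M] [IsManifold 𝓘(ℝ, E) ∞ M]
    (E' : Type*) [NormedAddCommGroup E'] [NormedSpace ℝ E'] [FiniteDimensional ℝ E']
    (B : Type*) [TopologicalSpace B] [T2Space B] [CompactSpace B] [ConnectedSpace B]
    [ChartedSpace E' B] [IsManifold 𝓘(ℝ, E') ∞ B]
    (Q : Type*) [TopologicalSpace Q] [CompactSpace Q] [ConnectedSpace Q]
    [ChartedSpace (EuclideanSpace ℝ (Fin 2)) Q] [IsManifold (𝓡 2) ∞ Q]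
    (hdim : Module.finrank ℝ E = Module.finrank ℝ E' + 2)
    (p : M → B) (hp : ContMDiff 𝓘(ℝ, E) 𝓘(ℝ, E') 2 p)
    (hpd : ∀ x, Function.Surjective (mfderiv 𝓘(ℝ, E) 𝓘(ℝ, E') p x))
    (hQ : ∀ y : B, ∃ j : Q → M, ContMDiff (𝓡 2) 𝓘(ℝ, E) 2 j ∧ Function.Injective j ∧
      (∀ z, Function.Injective (mfderiv (𝓡 2) 𝓘(ℝ, E) j z)) ∧ range j = p ⁻¹' {y})
    (f : Diffeomorph 𝓘(ℝ, E) 𝓘(ℝ, E) M M 1)
    (hf2 : ContMDiff 𝓘(ℝ, E) 𝓘(ℝ, E) 2 f) (hf2' : ContMDiff 𝓘(ℝ, E) 𝓘(ℝ, E) 2 f.symm)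
    (g : Diffeomorph 𝓘(ℝ, E') 𝓘(ℝ, E') B B 1)
    (hg2 : ContMDiff 𝓘(ℝ, E') 𝓘(ℝ, E') 2 g) (hg2' : ContMDiff 𝓘(ℝ, E') 𝓘(ℝ, E') 2 g.symm)
    (hfg : ∀ x, p (f x) = g (p x))
    (Es Eu : ∀ x : M, Submodule ℝ (TangentSpace 𝓘(ℝ, E) x)) (hf : IsAnosov f Es Eu) :
    (∃ Es' Eu' : ∀ y : B, Submodule ℝ (TangentSpace 𝓘(ℝ, E') y), IsAnosov g Es' Eu') ∧
    (TopTransitive f ↔ TopTransitive g) ∧
    Module.finrank ℝ E' ≠ 1 ∧
    (Module.finrank ℝ E' = 2 → TopTransitive f) := by
  have hp1 : ContMDiff 𝓘(ℝ, E) 𝓘(ℝ, E') 1 p := hp.of_le (by norm_num)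
  have hset : ∀ x : M, ∃ j : Q → M, Continuous j ∧ Function.Injective j ∧
      range j = {y | p x = p y} := fun x => by
    obtain ⟨j, hj, hji, -, hjr⟩ := hQ (p x)
    refine ⟨j, hj.continuous, hji, hjr.trans ?_⟩
    ext y
    exact ⟨fun h => Eq.symm h, fun h => Eq.symm h⟩
  have hsur : Function.Surjective p := fun y => by
    obtain ⟨j, -, -, -, hjr⟩ := hQ y
    obtain ⟨z⟩ : Nonempty Q := inferInstance
    have h1 : j z ∈ p ⁻¹' {y} := by rw [← hjr]; exact mem_range_self z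
    exact ⟨j z, h1⟩
  have : Nontrivial (EuclideanSpace ℝ (Fin 2)) :=
    Module.nontrivial_of_finrank_pos (R := ℝ) (by rw [finrank_euclideanSpace_fin]; omega)
  have hQinf : Infinite Q := Pool.Agent.R189.Sf.infinite_of_charted (E₂ := EuclideanSpace ℝ (Fin 2))
  obtain ⟨Es', Eu', hB⟩ := Pool.Agent.R189.Fb.fib_base f Es Eu hf p hp1 hpd hsur hdim g hfg
    (fun x => by
      obtain ⟨j, hj, -, hjr⟩ := hset x
      rw [← hjr]
      exact isPreconnected_range hj)
    (fun x => by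
      obtain ⟨j, -, hji, hjr⟩ := hset x
      rw [← hjr]
      exact Set.infinite_range_of_injective hji)
  have htr : TopTransitive g → TopTransitive f :=
    Pool.Agent.R189.Fb.fib_trans f hf2 hf2' Es Eu hf p hp1 hpd finrank_euclideanSpace_fin hQ g hfg
      Es' Eu' hB
  refine ⟨⟨Es', Eu', hB⟩, ⟨fun h => Pool.Agent.R189.Fb.trans_factor hp.continuous hsur hfg h, htr⟩,
    fun h1 => ?_, fun h2 => htr ?_⟩
  · have : Nontrivial E' := Module.nontrivial_of_finrank_pos (R := ℝ) (by omega)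
    obtain ⟨y⟩ : Nonempty B := inferInstance
    obtain ⟨h3, h4, h5⟩ := Pool.Agent.R189.Fb.anosov_dims g Es' Eu' hB y
    omega
  · have : Nontrivial E' := Module.nontrivial_of_finrank_pos (R := ℝ) (by omega)
    have h3 := Pool.Agent.R189.Fb.anosov_dims g Es' Eu' hB
    refine Pool.Agent.R189.Sf.surf_trans g hg2 hg2' Es' Eu' hB (fun y => ?_) (fun y => ?_)
    · obtain ⟨h4, h5, h6⟩ := h3 y
      have h7 : Module.finrank ℝ (Es' y : Submodule ℝ E') = 1 := by omega
      exact h7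
    · obtain ⟨h4, h5, h6⟩ := h3 y
      have h7 : Module.finrank ℝ (Eu' y : Submodule ℝ E') = 1 := by omega
      exact h7

end Pool.Agent.Results.MP_610fe3_an.SurfaceFibration
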